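import Mathlib

open Metric

namespace Pool.Agent.Results.MP_140fc6_an.Equiv

variable (X : Type) [NormedAddCommGroup X] [NormedSpace ℝ X]

/-- Weakly octahedral. -/
def WOH : Prop := ∀ E : Submodule ℝ X, FiniteDimensional ℝ E → ∀ f : StrongDual ℝ X, ‖f‖ ≤ 1 →
  ∀ ε > (0 : ℝ), ∃ y : X, ‖y‖ = 1 ∧ ∀ x ∈ E, (1 - ε) * (|f x| + ‖y‖) ≤ ‖x + y‖

/-- Property (P). -/
def PropP : Prop := ∀ ε > (0 : ℝ), ∀ n : ℕ, 1 ≤ n → ∀ x : Fin n → X, (∀ i, ‖x i‖ = 1) →
  ∀ f : StrongDual ℝ X, ‖f‖ ≤ 1 → ∃ y : X, ‖y‖ = 1 ∧ ∀ i, (1 - ε) * (|f (x i)| + 1) ≤ ‖x i + y‖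

variable {X}

lemma fle {f : StrongDual ℝ X} (hf : ‖f‖ ≤ 1) (x : X) : |f x| ≤ ‖x‖ :=
  (f.le_opNorm x).trans (mul_le_of_le_one_left (norm_nonneg _) hf)

lemma unif (h : PropP X) (F : Submodule ℝ X) [FiniteDimensional ℝ F] {z : X} (hz : z ∈ F)
    (hz1 : ‖z‖ = 1) {f : StrongDual ℝ X} (hf : ‖f‖ ≤ 1) {η : ℝ} (hη : 0 < η) :
    ∃ y : X, ‖y‖ = 1 ∧ ∀ x ∈ F, ‖x‖ = 1 → |f x| + 1 - η ≤ ‖x + y‖ := by
  obtain ⟨t, h1, h2, h3⟩ := finite_cover_balls_of_compact (isCompact_sphere (0 : F) 1)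
    (show 0 < η / 4 by positivity)
  have : Fintype t := h2.fintype
  have h4 : ∀ x (hx : x ∈ F), ‖x‖ = 1 → ∃ u : t, ‖x - u.1.1‖ < η / 4 := fun x hx hx1 => by
    obtain ⟨u, hu, h⟩ := Set.mem_iUnion₂.1
      (h3 ((mem_sphere_zero_iff_norm (a := (⟨x, hx⟩ : F))).2 hx1))
    exact ⟨⟨u, hu⟩, mem_ball_iff_norm.1 h⟩
  have : Nonempty t := ⟨(h4 z hz hz1).choose⟩
  obtain ⟨y, hy, h5⟩ := h (η / 4) (by positivity) _ Fintype.card_pos
    (fun i => ((Fintype.equivFin t).symm i).1.1)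
    (fun i => mem_sphere_zero_iff_norm.1 (h1 ((Fintype.equivFin t).symm i).2)) f hf
  refine ⟨y, hy, fun x hx hx1 => ?_⟩
  obtain ⟨u, hu⟩ := h4 x hx hx1
  have h6 := h5 (Fintype.equivFin t u)
  simp only [Equiv.symm_apply_apply] at h6
  have h7 : |f u.1.1| ≤ 1 := (fle hf _).trans_eq (mem_sphere_zero_iff_norm.1 (h1 u.2))
  have h8 := (abs_sub_abs_le_abs_sub (f x) (f u.1.1)).trans (map_sub f x _ ▸ fle hf (x - u.1.1))
  have h9 := norm_sub_le (x + y) (x - u.1.1)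
  rw [show x + y - (x - u.1.1) = u.1.1 + y by abel] at h9
  nlinarith

theorem result [Nontrivial X] : WOH X ↔ PropP X := by
  refine ⟨fun h ε hε n _ x _ f hf => ?_, fun h E hE f hf ε hε => ?_⟩
  · obtain ⟨y, hy, h1⟩ := h (Submodule.span ℝ (Set.range x))
      (FiniteDimensional.span_of_finite ℝ (Set.finite_range x)) f hf ε hε
    exact ⟨y, hy, fun i => hy ▸ h1 _ (Submodule.subset_span ⟨i, rfl⟩)⟩
  obtain ⟨z0, hz0⟩ := exists_norm_eq X zero_le_one
  wlog hε1 : ε ≤ 1 generalizing ε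
  · exact ⟨z0, hz0, fun x _ => (mul_nonpos_of_nonpos_of_nonneg (by linarith)
      (by positivity)).trans (norm_nonneg _)⟩
  obtain ⟨v, hv⟩ : ∃ v, v ∉ E := by
    by_contra hv
    push Not at hv
    obtain ⟨y, hy, h1⟩ := unif h E (hv z0) hz0 hf one_half_pos
    have := h1 (-y) (hv _) (by rwa [norm_neg])
    rw [neg_add_cancel, norm_zero] at this
    linarith [abs_nonneg (f (-y))]
  obtain ⟨g, c, hg, hc⟩ := geometric_hahn_banach_closed_point E.convex
    E.closed_of_finiteDimensional hv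
  have hg0 : ∀ x ∈ E, g x = 0 := fun x hx => by
    by_contra h0
    have := hg _ (E.smul_mem (c / g x) hx)
    rw [map_smul, smul_eq_mul, div_mul_cancel₀ _ h0] at this
    exact lt_irrefl _ this
  have hg1 : 0 < ‖g‖ := norm_pos_iff.2 fun e => by
    have := hg 0 E.zero_mem
    rw [e] at this hc
    exact lt_asymm this hc
  obtain ⟨s, -, hs⟩ := intermediate_value_Icc (f := fun s : ℝ => ‖f + s • g‖)
    (show 0 ≤ 2 / ‖g‖ by positivity) (by fun_prop) (show 1 ∈ _ from ⟨by simpa using hf, by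
      have := norm_sub_le (f + (2 / ‖g‖) • g) f
      rw [add_sub_cancel_left, norm_smul, Real.norm_of_nonneg (by positivity),
        div_mul_cancel₀ _ hg1.ne'] at this
      linarith⟩)
  have hs' : ‖f + s • g‖ = 1 := hs
  have hE' : ∀ x ∈ E, f x = (f + s • g) x := fun x hx => by simp [hg0 x hx]
  generalize f + s • g = k at hs' hE'
  have hη : 0 < ε ^ 2 / 3 := by positivity
  obtain ⟨z, hz1, hz⟩ : ∃ z, ‖z‖ = 1 ∧ 1 - ε ^ 2 / 3 < k z := by
    by_contra h1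
    push Not at h1
    have := k.opNorm_le_of_unit_norm (C := 1 - ε ^ 2 / 3) (by nlinarith) fun x hx =>
      abs_le.2 ⟨by have := h1 (-x) (by rwa [norm_neg]); rw [map_neg] at this; linarith, h1 x hx⟩
    linarith
  obtain ⟨y, hy, h1⟩ := unif h (E ⊔ Submodule.span ℝ {z})
    (Submodule.mem_sup_right (Submodule.mem_span_singleton_self z)) hz1 hs'.le hη
  refine ⟨y, hy, fun x hx => ?_⟩
  rw [hy, hE' x hx]
  have ha := abs_nonneg (k x)
  rcases le_or_gt ‖x‖ 1 with h2 | h2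
  · obtain ⟨σ, h3, h4⟩ : ∃ σ : ℝ, |σ| = 1 ∧ σ * k x = |k x| := by
      rcases le_total 0 (k x) with h | h
      exacts [⟨1, abs_one, by rw [abs_of_nonneg h, one_mul]⟩,
        ⟨-1, by simp, by rw [abs_of_nonpos h, neg_one_mul]⟩]
    have h5 : ∀ r : ℝ, 0 ≤ r → ‖(r * σ) • z‖ = r := fun r hr => by
      rw [norm_smul, hz1, mul_one, Real.norm_eq_abs, abs_mul, h3, mul_one, abs_of_nonneg hr]
    obtain ⟨r, ⟨h6, h7⟩, hr⟩ := intermediate_value_Icc (f := fun r : ℝ => ‖x + (r * σ) • z‖)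
      zero_le_two (by fun_prop) (show 1 ∈ _ from ⟨by simpa using h2, by
        have := norm_sub_le (x + (2 * σ) • z) x
        rw [add_sub_cancel_left, h5 2 zero_le_two] at this
        linarith⟩)
    have h8 := h1 _ (Submodule.add_mem_sup hx
      (Submodule.smul_mem _ (r * σ) (Submodule.mem_span_singleton_self z))) hr
    have h9 := norm_add_le (x + y) ((r * σ) • z)
    rw [h5 r h6, add_right_comm] at h9
    have h10 := le_abs_self (σ * k (x + (r * σ) • z))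
    have h11 : σ * σ = 1 := by rw [← abs_mul_abs_self, h3, one_mul]
    rw [abs_mul, h3, one_mul] at h10
    have h12 : σ * k (x + (r * σ) • z) = |k x| + r * k z := by
      rw [map_add, map_smul, smul_eq_mul]; linear_combination h4 + r * k z * h11
    nlinarith [mul_le_mul_of_nonneg_left hz.le h6, mul_nonneg hε.le ha]
  · have h3 : 0 < ‖x‖ := by linarith
    have h4 := h1 (‖x‖⁻¹ • x) (Submodule.mem_sup_left (E.smul_mem _ hx))
      (norm_smul_inv_norm (norm_pos_iff.1 h3))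
    have h5 := norm_add_le (x + y) ((‖x‖ - 1) • y)
    rw [show x + y + (‖x‖ - 1) • y = ‖x‖ • (‖x‖⁻¹ • x + y) by
      rw [smul_add, smul_inv_smul₀ h3.ne']; module, norm_smul, norm_smul, hy, norm_norm,
      Real.norm_of_nonneg (by linarith)] at h5
    have h6 := mul_le_mul_of_nonneg_left h4 h3.le
    rw [map_smul, smul_eq_mul, abs_mul, abs_of_pos (inv_pos.2 h3), mul_sub, mul_add,
      mul_inv_cancel_left₀ h3.ne'] at h6
    have h7 := norm_sub_le (x + y) y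
    rw [add_sub_cancel_right, hy] at h7
    have h8 := fle hs'.le x
    rcases le_total (ε * ‖x‖) 2 with h9 | h9
    · nlinarith [mul_nonneg hε.le ha]
    · nlinarith [mul_le_mul_of_nonneg_left h8 (sub_nonneg.2 hε1)]

end Pool.Agent.Results.MP_140fc6_an.Equiv
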